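import Pool.Agent.H2.Jor1

namespace Pool.Agent.Results.MP_728180_al.NoDom

open Pool.Agent.H2.Jor

theorem result (k A : Type) [Field k] [CommRing A] [Algebra k A] [IsLocalRing A]
    [Module.Finite k A] (l : A) (hl : l ∈ IsLocalRing.maximalIdeal A) (P : List ℕ)
    (hP : IsJordanType k l P) : ¬ (Dominates P (Pc (hf k A)) ∧ P ≠ Pc (hf k A)) :=
  fun h => h.2 (main hl hP h.1).2

end Pool.Agent.Results.MP_728180_al.NoDom
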